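import Pool.Agent.H.MP_6d476a.C

namespace Pool.Agent.Results.MP_36375e_gt.No

open unitInterval

/-- scattered continuity -/
def SC {X : Type*} [TopologicalSpace X] (f : X → ℝ) : Prop :=
  ∀ A : Set X, A.Nonempty → ∃ a ∈ A, ContinuousWithinAt f A a

theorem result : ¬ ∃ T : Set ((ℕ → ℕ) → ℝ), IsCompact T ∧ (∀ g ∈ T, SC g) ∧
    Nonempty ({f : I → I | Monotone f} ≃ₜ T) := by
  rintro ⟨T, -, h3, ⟨e⟩⟩
  have : Uncountable I := Cardinal.aleph0_lt_mk_iff.1 (by
    rw [Cardinal.mk_Icc_real zero_lt_one]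
    exact Cardinal.aleph0_lt_continuum)
  let ι : Pool.Agent.H.MP_6d476a.H (Subtype.val : I → ℝ) → {f : I → I | Monotone f} :=
    fun h => ⟨fun x => ⟨h.1 x, h.2.2 x⟩, fun x y hxy => h.2.1 x y hxy⟩
  have c : Continuous ι := (continuous_pi fun x =>
    ((continuous_apply x).comp continuous_subtype_val).subtype_mk _).subtype_mk _
  have i : Function.Injective ι := fun h h' H => Subtype.ext (funext fun x =>
    congrArg Subtype.val (congrFun (congrArg Subtype.val H) x))
  obtain ⟨f, A, h4, h5⟩ := Pool.Agent.H.MP_6d476a.noemb Subtype.val_injective (fun f => e (ι f))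
    (continuous_subtype_val.comp (e.continuous.comp c))
    (Subtype.val_injective.comp (e.injective.comp i))
  obtain ⟨a, h6, h7⟩ := h3 _ (e (ι f)).2 A h4
  exact h5 a h6 h7

end Pool.Agent.Results.MP_36375e_gt.No
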